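import Pool.Agent.Lib.MP_af63cc_an.Symb

open Filter Topology AddCircle Pool.Agent.Lib.MP_af63cc_an

theorem Pool.Agent.Results.MP_af63cc_an.Localization.result {R S : ℕ}
    (β : Fin R → ℂ) (β' : Fin S → ℂ)
    (hβ : ∑ r, |(β r).re| < 1 / 2) (hβ' : ∑ s, |(β' s).re| < 1 / 2)
    (b b' : Circle → ℂ) (hb : Admissible b) (hb' : Admissible b')
    (t0 t0' : Circle) (hne : t0 ≠ t0')
    (t : ℕ → Fin R → Circle) (t' : ℕ → Fin S → Circle)
    (ht : ∀ r, Tendsto (fun n => t n r) atTop (𝓝 t0))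
    (ht' : ∀ s, Tendsto (fun n => t' n s) atTop (𝓝 t0')) :
    (∀ᶠ n in atTop, toepDet n (symb b β (t n)) ≠ 0 ∧ toepDet n (symb b' β' (t' n)) ≠ 0) ∧
      ∃ L : ℂ, Tendsto (fun n => toepDet n (fun z => symb b β (t n) z * symb b' β' (t' n) z) /
        (toepDet n (symb b β (t n)) * toepDet n (symb b' β' (t' n)))) atTop (𝓝 L) := by
  obtain ⟨C, h1⟩ := good_symb hb hβ ht
  obtain ⟨C', h2⟩ := good_symb hb' hβ' ht'
  obtain ⟨φ, p1, p2, p3⟩ := exists_cutoff hne
  obtain ⟨c, c0, c1, c2⟩ := const_local b β ht p2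
  obtain ⟨d, d0, d1, d2⟩ := const_local b' β' ht' p3
  have key := localization h1 h2 (sm_iff.mpr p1)
    (sm_local hb β (ψ := fun z => 1 - φ z) (contDiff_const.sub p1) p2) (sm_local hb' β' p1 p3)
    c1 d1 (c2.mono fun n hn x => hn _) (d2.mono fun n hn x => hn _)
  simp only [fun n => toepDet_eq (h1.bd n) n, fun n => toepDet_eq (h2.bd n) n,
    fun n => toepDet_eq (a := fun z => symb b β (t n) z * symb b' β' (t' n) z)
      ((h1.bd n).mul (h2.bd n)) n]
  exact key
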